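import Pool.Agent.N178.HW.Defs

/-!
# Existence of highest weight vectors (subtask GHC/B of helper178)
-/

set_option autoImplicit false
set_option linter.unusedSectionVars false

namespace Pool.Agent.N661.GHC

open Finset Matrix Pool.Agent.W437.HC Pool.Agent.V1168.GH Pool.Agent.N178.HW

noncomputable section

variable {κ R P : Type} [Fintype κ] [DecidableEq κ] [Fintype R] [DecidableEq R] [DecidableEq P]
  {cls : R → P} {b : P → P} {inv : R → R} {jj : R → ℂ} {X : R → Prop} {h : R → ℤ}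
  {T : Submodule ℂ (P → ℂ)}

theorem act_diag (d : R → ℂ) (f : (κ → R) → ℂ) (z : κ → R) :
    act (Matrix.diagonal d) f z = wt d z * f z := by
  unfold act wt
  rw [sum_mul]
  refine sum_congr rfl fun k _ => ?_
  rw [sum_eq_single (z k)]
  · rw [Matrix.diagonal_apply_eq, Function.update_eq_self]
  · intro j _ hj
    rw [Matrix.diagonal_apply_ne _ hj, zero_mul]
  · intro hj
    exact absurd (mem_univ _) hj

theorem inv_inj (hF : Fr cls b inv jj X) {x y : R} (hxy : inv x = inv y) : x = y := by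
  rw [← hF.ii x, hxy, hF.ii]

theorem diag_mem (hF : Fr cls b inv jj X) {d : R → ℂ} (hd : Dg cls inv T d) :
    Matrix.diagonal d ∈ GR cls inv jj T := by
  refine ⟨fun x y hxy => ?_, fun x y => ?_, ?_⟩
  · exact Matrix.diagonal_apply_ne _ fun e => hxy (by rw [e])
  · by_cases e : x = y
    · subst e
      rw [Matrix.diagonal_apply_eq, Matrix.diagonal_apply_eq, hd.1]
      rcases hF.j1 x with e1 | e1 <;> rw [e1] <;> ring
    · rw [Matrix.diagonal_apply_ne _ e, Matrix.diagonal_apply_ne _ fun e' => e (inv_inj hF e').symm]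
      ring
  · have e : (fun p => ∑ x ∈ univ.filter (fun x => cls x = p), Matrix.diagonal d x x) =
        (fun p => ∑ x ∈ univ.filter (fun x => cls x = p), d x) := by
      funext p
      exact sum_congr rfl fun x _ => Matrix.diagonal_apply_eq _ _
    rw [e]
    exact hd.2

theorem EE_mem (hF : Fr cls b inv jj X) {x y : R} (hc : cls x = cls y) (hxy : x ≠ y) :
    EE inv jj x y ∈ GR cls inv jj T := by
  have hne : inv y ≠ inv x := fun e => hxy (inv_inj hF e).symm
  refine ⟨fun u w huw => ?_, fun u w => ?_, ?_⟩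
  · unfold EE
    rw [Matrix.sub_apply, Matrix.smul_apply, Matrix.single_apply, Matrix.single_apply,
      if_neg, if_neg, smul_zero, sub_zero]
    · rintro ⟨rfl, rfl⟩
      apply huw
      rw [hF.ci, hF.ci, hc]
    · rintro ⟨rfl, rfl⟩
      exact huw hc
  · unfold EE
    simp only [Matrix.sub_apply, Matrix.smul_apply, Matrix.single_apply, smul_eq_mul]
    by_cases h1 : x = u ∧ y = w
    · obtain ⟨rfl, rfl⟩ := h1
      rw [if_pos (⟨rfl, rfl⟩ : x = x ∧ y = y), if_pos (⟨rfl, rfl⟩ : inv y = inv y ∧ inv x = inv x)]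
      by_cases h2 : x = inv y ∧ y = inv x
      · rw [if_pos h2, if_pos ⟨h2.1.symm, h2.2.symm⟩]
        have e1 : jj y = - jj x := by rw [h2.2, hF.jn]
        rw [e1]
        rcases hF.j1 x with e2 | e2 <;> rw [e2] <;> ring
      · rw [if_neg h2, if_neg fun e => h2 ⟨e.1.symm, e.2.symm⟩]
        ring
    · rw [if_neg h1, if_neg (fun e : inv y = inv w ∧ inv x = inv u =>
        h1 ⟨inv_inj hF e.2, inv_inj hF e.1⟩)]
      by_cases h2 : x = inv w ∧ y = inv u
      · have e3 : inv y = u ∧ inv x = w := ⟨by rw [h2.2, hF.ii], by rw [h2.1, hF.ii]⟩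
        rw [if_pos h2, if_pos e3, ← e3.1, ← e3.2, hF.jn, hF.jn]
        rcases hF.j1 x with e2 | e2 <;> rcases hF.j1 y with e4 | e4 <;> rw [e2, e4] <;> ring
      · rw [if_neg h2, if_neg fun e : inv y = u ∧ inv x = w =>
          h2 ⟨by rw [← e.2, hF.ii], by rw [← e.1, hF.ii]⟩]
        ring
  · have e : (fun p => ∑ x' ∈ univ.filter (fun x' => cls x' = p), (EE inv jj x y) x' x') = 0 := by
      funext p
      refine sum_eq_zero fun u _ => ?_
      unfold EE
      rw [Matrix.sub_apply, Matrix.smul_apply, Matrix.single_apply, Matrix.single_apply,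
        if_neg, if_neg, smul_zero, sub_zero]
      · rintro ⟨e1, e2⟩
        exact hne (e1.trans e2.symm)
      · rintro ⟨e1, e2⟩
        exact hxy (e1.trans e2.symm)
    rw [e]
    exact T.zero_mem

/-- vectors of minimal support are weight vectors -/
theorem minsup (Q : ((κ → R) → ℂ) → Prop) (hQ : ∃ f, Q f ∧ f ≠ 0)
    (hcl : ∀ f, Q f → ∀ d, Dg cls inv T d → ∀ c : ℂ, Q (act (Matrix.diagonal d) f - c • f)) :
    ∃ v, Q v ∧ v ≠ 0 ∧ ∀ d, Dg cls inv T d → ∀ z z', v z ≠ 0 → v z' ≠ 0 → wt d z = wt d z' := by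
  classical
  have hex : ∃ n : ℕ, ∃ f, Q f ∧ f ≠ 0 ∧ (univ.filter fun z => f z ≠ 0).card = n := by
    obtain ⟨f, h1, h2⟩ := hQ
    exact ⟨_, f, h1, h2, rfl⟩
  obtain ⟨v, h1, h2, h3⟩ := Nat.find_spec hex
  refine ⟨v, h1, h2, fun d hd z z' hz hz' => ?_⟩
  by_contra hne
  have hu : ∀ w, (act (Matrix.diagonal d) v - wt d z • v) w = (wt d w - wt d z) * v w := by
    intro w
    rw [Pi.sub_apply, Pi.smul_apply, act_diag, smul_eq_mul]
    ring
  have h4 : (act (Matrix.diagonal d) v - wt d z • v) ≠ 0 := by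
    intro e
    have := congrFun e z'
    rw [hu, Pi.zero_apply] at this
    rcases mul_eq_zero.1 this with e1 | e1
    · exact hne (sub_eq_zero.1 e1).symm
    · exact hz' e1
  have h5 : (univ.filter fun w => (act (Matrix.diagonal d) v - wt d z • v) w ≠ 0).card <
      Nat.find hex := by
    rw [← h3]
    refine card_lt_card ?_
    rw [Finset.ssubset_iff_of_subset]
    · refine ⟨z, mem_filter.2 ⟨mem_univ _, hz⟩, fun e => (mem_filter.1 e).2 ?_⟩
      rw [hu, sub_self, zero_mul]
    · intro w hw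
      rw [mem_filter] at hw ⊢
      refine ⟨mem_univ _, fun e => hw.2 ?_⟩
      rw [hu, e, mul_zero]
  exact Nat.find_min hex h5 ⟨_, hcl v h1 d hd _, h4, rfl⟩

/-- the height of a point -/
def HH (h : R → ℤ) (z : κ → R) : ℤ := ∑ k, h (z k)

theorem HH_update (h : R → ℤ) (z : κ → R) (k : κ) (x : R) :
    HH h (Function.update z k x) = HH h z - h (z k) + h x := by
  unfold HH
  rw [← add_sum_erase univ _ (mem_univ k), ← add_sum_erase univ (fun k => h (z k)) (mem_univ k),
    Function.update_self]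
  have e : ∑ l ∈ univ.erase k, h (Function.update z k x l) = ∑ l ∈ univ.erase k, h (z l) :=
    sum_congr rfl fun l hl => by rw [Function.update_of_ne (mem_erase.1 hl).1]
  rw [e]
  ring

theorem act_EE_ne (hh : ∀ x, h (inv x) = - h x) {x y : R}
    {f : (κ → R) → ℂ} {z : κ → R} (hz : act (EE inv jj x y) f z ≠ 0) :
    ∃ z', f z' ≠ 0 ∧ HH h z = HH h z' + (h y - h x) := by
  unfold act at hz
  obtain ⟨k, -, hk⟩ := exists_ne_zero_of_sum_ne_zero hz
  obtain ⟨j, -, hj⟩ := exists_ne_zero_of_sum_ne_zero hk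
  refine ⟨_, right_ne_zero_of_mul hj, ?_⟩
  have hj' := left_ne_zero_of_mul hj
  unfold EE at hj'
  rw [Matrix.sub_apply, Matrix.smul_apply, Matrix.single_apply, Matrix.single_apply] at hj'
  rw [HH_update]
  by_cases h1 : x = j ∧ y = z k
  · rw [← h1.1, ← h1.2]
    ring
  · rw [if_neg h1] at hj'
    by_cases h2 : inv y = j ∧ inv x = z k
    · rw [← h2.1, ← h2.2, hh, hh]
      ring
    · rw [if_neg h2] at hj'
      exact absurd (by simp) hj'

theorem two_wt (hF : Fr cls b inv jj X) {d : R → ℂ} (hd : ∀ x, d (inv x) = - d x) (z : κ → R) :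
    2 * wt d z = ∑ x, (cnt inv z x : ℂ) * d x := by
  have h1 : ∑ x, (((univ.filter fun k => z k = x).card : ℤ) : ℂ) * d x = wt d z := by
    have e : ∀ x, (((univ.filter fun k => z k = x).card : ℤ) : ℂ) * d x =
        ∑ k, if z k = x then d x else 0 := by
      intro x
      rw [← sum_filter, sum_const, nsmul_eq_mul, Int.cast_natCast]
    simp only [e]
    rw [sum_comm]
    unfold wt
    refine sum_congr rfl fun k _ => ?_
    rw [sum_ite_eq, if_pos (mem_univ _)]
  have h2 : ∑ x, (((univ.filter fun k => z k = inv x).card : ℤ) : ℂ) * d x = - wt d z := by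
    have e : ∀ x, (((univ.filter fun k => z k = inv x).card : ℤ) : ℂ) * d x =
        ∑ k, if inv (z k) = x then d x else 0 := by
      intro x
      rw [← sum_filter, sum_const, nsmul_eq_mul, Int.cast_natCast]
      congr 3
      ext k
      rw [mem_filter, mem_filter]
      refine and_congr_right fun _ => ⟨fun e => ?_, fun e => ?_⟩
      · rw [e, hF.ii]
      · rw [← e, hF.ii]
    simp only [e]
    rw [sum_comm]
    unfold wt
    rw [← sum_neg_distrib]
    refine sum_congr rfl fun k _ => ?_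
    rw [sum_ite_eq, if_pos (mem_univ _), hd]
  unfold cnt
  have e : ∀ x, (((((univ.filter fun k => z k = x).card : ℤ) -
      (univ.filter fun k => z k = inv x).card : ℤ)) : ℂ) * d x =
      (((univ.filter fun k => z k = x).card : ℤ) : ℂ) * d x -
      (((univ.filter fun k => z k = inv x).card : ℤ) : ℂ) * d x := by
    intro x
    rw [Int.cast_sub, sub_mul]
  simp only [e]
  rw [sum_sub_distrib, h1, h2]
  ring

end

end Pool.Agent.N661.GHC

open Finset Matrix Pool.Agent.W437.HC Pool.Agent.V1168.GH Pool.Agent.N178.HW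
  Pool.Agent.N661.GHC in
/-- **subtask GHC/B** -/
theorem Pool.Agent.N661.GHC.t_VEC : Pool.Agent.N178.HW.S_VEC := by
  intro κ R P _ _ _ _ _ cls b inv jj X h T hF hH U hU hne
  have hdh : Dg cls inv T (fun x => (h x : ℂ)) := by
    refine ⟨fun x => by
      change ((h (inv x) : ℤ) : ℂ) = -((h x : ℤ) : ℂ)
      rw [hH.odd, Int.cast_neg], ?_⟩
    have e : (fun p => ∑ x ∈ univ.filter (fun x => cls x = p), (h x : ℂ)) = 0 := by
      funext p
      rw [← Int.cast_sum, hH.sum, Int.cast_zero]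
      rfl
    rw [e]
    exact T.zero_mem
  have hwt : ∀ z : κ → R, wt (fun x => (h x : ℂ)) z = (HH h z : ℂ) := by
    intro z
    unfold wt HH
    rw [Int.cast_sum]
  have hUc : ∀ f, f ∈ U → ∀ d, Dg cls inv T d → ∀ c : ℂ, act (Matrix.diagonal d) f - c • f ∈ U :=
    fun f hf d hd c => U.sub_mem (hU _ (diag_mem hF hd) f hf) (U.smul_mem c hf)
  obtain ⟨f0, hf0, hf0n⟩ := Submodule.exists_mem_ne_zero_of_ne_bot hne
  -- homogeneous vectors exist
  obtain ⟨v0, hv0, hv0n, hv0w⟩ := minsup (cls := cls) (inv := inv) (T := T) (fun f => f ∈ U)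
    ⟨f0, hf0, hf0n⟩ hUc
  -- the set of the heights of homogeneous vectors
  classical
  set S : Finset (κ → R) := univ.filter fun z => ∃ f ∈ U, f z ≠ 0 ∧ ∀ z', f z' ≠ 0 →
    HH h z' = HH h z with hS
  have hSne : S.Nonempty := by
    obtain ⟨z, hz⟩ := Function.ne_iff.1 hv0n
    refine ⟨z, mem_filter.2 ⟨mem_univ _, v0, hv0, hz, fun z' hz' => ?_⟩⟩
    have := hv0w _ hdh z' z hz' hz
    rw [hwt, hwt] at this
    exact_mod_cast this
  obtain ⟨zm, hzm, hmax⟩ := exists_max_image S (HH h) hSne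
  obtain ⟨-, fm, hfm, hfmz, hfmh⟩ := mem_filter.1 hzm
  obtain ⟨v, ⟨hv, hvh⟩, hvn, hvw⟩ := minsup (cls := cls) (inv := inv) (T := T)
    (fun f => f ∈ U ∧ ∀ z', f z' ≠ 0 → HH h z' = HH h zm)
    ⟨fm, ⟨hfm, hfmh⟩, fun e => hfmz (by rw [e]; rfl)⟩ (by
      rintro f ⟨h1, h2⟩ d hd c
      refine ⟨hUc f h1 d hd c, fun z' hz' => h2 z' fun e => hz' ?_⟩
      rw [Pi.sub_apply, Pi.smul_apply, act_diag, e, mul_zero, smul_zero, sub_zero])
  obtain ⟨z₀, hz₀⟩ := Function.ne_iff.1 hvn
  have hz₀' : v z₀ ≠ 0 := hz₀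
  refine ⟨v, hv, hvn, z₀, hz₀', ?_, ?_, ?_⟩
  · intro x
    unfold cnt
    rw [hF.ii]
    ring
  · intro x y hc hxy
    by_contra hcon
    obtain ⟨z1, hz1⟩ := Function.ne_iff.1 hcon
    have hz1' : act (EE inv jj x y) v z1 ≠ 0 := hz1
    have hxne : x ≠ y := fun e => by rw [e] at hxy; exact lt_irrefl _ hxy
    have key : ∀ z, act (EE inv jj x y) v z ≠ 0 → HH h z = HH h zm + (h y - h x) := by
      intro z hz
      obtain ⟨z', hz', e⟩ := act_EE_ne hH.odd hz
      rw [e, hvh z' hz']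
    have hmem : z1 ∈ S := mem_filter.2 ⟨mem_univ _, _, hU _ (EE_mem hF hc hxne) v hv, hz1',
      fun z' hz' => by rw [key z' hz', key z1 hz1']⟩
    have h1 := hmax z1 hmem
    rw [key z1 hz1'] at h1
    linarith
  · intro z hz d hd
    rw [hvw d hd z z₀ hz hz₀']
    exact two_wt hF hd.1 z₀
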